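import Pool.Agent.H456R3.S.G4

set_option autoImplicit false

open MeasureTheory
open scoped ENNReal

namespace Pool.Agent.Results.MP_5ab436_an.BoundedFiniteness

/-- `u ∈ H¹(ℝ^d)` with weak gradient `g = (∂_i u)_i`. -/
structure IsH1 {d : ℕ} (u : (Fin d → ℝ) → ℝ) (g : Fin d → (Fin d → ℝ) → ℝ) : Prop where
  memLp : MemLp u 2 volume
  memLp_grad : ∀ i, MemLp (g i) 2 volume
  weak : ∀ i (φ : (Fin d → ℝ) → ℝ), ContDiff ℝ ((⊤ : ℕ∞) : WithTop ℕ∞) φ → HasCompactSupport φ →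
    ∫ x, u x * fderiv ℝ φ x (Pi.single i (1 : ℝ)) = - ∫ x, g i x * φ x

/-- A `k`-frame of the form domain `H¹_V`: functions `u₁, …, u_k ∈ H¹` with weak gradients `g_j`,
with `∫ V u_j² < ∞`, that are linearly independent in `L²`. -/
structure IsFrame {d k : ℕ} (V : (Fin d → ℝ) → ℝ≥0∞) (u : Fin k → (Fin d → ℝ) → ℝ)
    (g : Fin k → Fin d → (Fin d → ℝ) → ℝ) : Prop where
  h1 : ∀ j, IsH1 (u j) (g j)
  pot : ∀ j, ∫⁻ x, V x * ENNReal.ofReal (u j x ^ 2) < ⊤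
  indep : ∀ c : Fin k → ℝ, c ≠ 0 → ∫⁻ x, ENNReal.ofReal ((∑ j, c j * u j x) ^ 2) ≠ 0

/-- The Rayleigh quotient of `∑ c_j u_j` for the form `∫ |∇u|² + ∫ V u²`. -/
noncomputable def rayleigh {d k : ℕ} (V : (Fin d → ℝ) → ℝ≥0∞) (u : Fin k → (Fin d → ℝ) → ℝ)
    (g : Fin k → Fin d → (Fin d → ℝ) → ℝ) (c : Fin k → ℝ) : ℝ≥0∞ :=
  (∫⁻ x, ((∑ i, ENNReal.ofReal ((∑ j, c j * g j i x) ^ 2))
      + V x * ENNReal.ofReal ((∑ j, c j * u j x) ^ 2))) /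
    ∫⁻ x, ENNReal.ofReal ((∑ j, c j * u j x) ^ 2)

/-- The `k`-th eigenvalue of `-Δ + V`, given by the min-max formula. -/
noncomputable def eigenvalue {d : ℕ} (k : ℕ) (V : (Fin d → ℝ) → ℝ≥0∞) : ℝ≥0∞ :=
  ⨅ (u : Fin k → (Fin d → ℝ) → ℝ) (g : Fin k → Fin d → (Fin d → ℝ) → ℝ) (_ : IsFrame V u g),
    ⨆ (c : Fin k → ℝ) (_ : c ≠ 0), rayleigh V u g c

/-- Admissible potentials: `V ≥ 0` measurable with `∫ V^{-p} ≤ 1` (`0^{-p} = ∞`, `∞^{-p} = 0`). -/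
def Admissible {d : ℕ} (p : ℝ) (V : (Fin d → ℝ) → ℝ≥0∞) : Prop :=
  Measurable V ∧ ∫⁻ x, V x ^ (-p) ≤ 1

/-- `V` is an optimal potential for the `k`-th eigenvalue. -/
def IsOptimal {d : ℕ} (p : ℝ) (k : ℕ) (V : (Fin d → ℝ) → ℝ≥0∞) : Prop :=
  Admissible p V ∧ ∀ W : (Fin d → ℝ) → ℝ≥0∞, Admissible p W → eigenvalue k V ≤ eigenvalue k W

theorem eigenvalue_eq {d : ℕ} (k : ℕ) (V : (Fin d → ℝ) → ℝ≥0∞) :
    eigenvalue k V = Pool.Agent.H456R3.S.lamK k V := by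
  unfold eigenvalue Pool.Agent.H456R3.S.lamK rayleigh
  refine iInf_congr fun u => iInf_congr fun g => ?_
  refine iInf_congr_Prop ?_ fun _ => rfl
  constructor
  · rintro ⟨h1, h2, h3⟩
    exact ⟨fun j => (h1 j).memLp, fun j i => (h1 j).memLp_grad i,
      fun j i φ h4 h5 => (h1 j).weak i φ h4 h5, h2, h3⟩
  · rintro ⟨h1, h2, h3, h4, h5⟩
    exact ⟨fun j => ⟨h1 j, h2 j, h3 j⟩, h4, h5⟩

/-- **Optimal potentials have bounded finiteness sets.**  For every dimension `d ≥ 1`, every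
`0 < p ≤ 1` and every `k ≥ 1`, optimal potentials for the `k`-th eigenvalue exist, the optimal value
is finite, and every optimal potential is `∞` almost everywhere outside some ball. -/
theorem result (d : ℕ) (hd : 1 ≤ d) (p : ℝ) (hp0 : 0 < p) (hp1 : p ≤ 1) (k : ℕ) (hk : 1 ≤ k) :
    (∃ V : (Fin d → ℝ) → ℝ≥0∞, IsOptimal p k V) ∧
    ∀ V : (Fin d → ℝ) → ℝ≥0∞, IsOptimal p k V →
      eigenvalue k V < ∞ ∧ ∃ R : ℝ, ∀ᵐ x ∂(volume : Measure (Fin d → ℝ)), R < ‖x‖ → V x = ∞ := by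
  constructor
  · obtain ⟨V, h1, h2, h3⟩ := Pool.Agent.H456R3.S.exists_optimal (d := d) (k := k) hk hp0 hp1
    refine ⟨V, ⟨h1, h2⟩, fun W hW => ?_⟩
    rw [eigenvalue_eq, eigenvalue_eq]
    exact h3 W hW.1 hW.2
  · rintro V ⟨⟨h1, h2⟩, h3⟩
    have h4 : ∀ W : (Fin d → ℝ) → ℝ≥0∞, Measurable W → ∫⁻ x, W x ^ (-p) ≤ 1 →
        Pool.Agent.H456R3.S.lamK k V ≤ Pool.Agent.H456R3.S.lamK k W := by
      intro W hW1 hW2
      rw [← eigenvalue_eq, ← eigenvalue_eq]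
      exact h3 W ⟨hW1, hW2⟩
    refine ⟨?_, Pool.Agent.H456R3.S.bounded_finiteness hd hk hp0 hp1 h1 h2 h4⟩
    obtain ⟨W, hW, hW1, hWf⟩ := Pool.Agent.H456R3.S.exists_finite hd k hp0
    rw [eigenvalue_eq]
    exact lt_top_iff_ne_top.2 (ne_top_of_le_ne_top hWf (h4 W hW hW1))

end Pool.Agent.Results.MP_5ab436_an.BoundedFiniteness
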